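import Pool.Agent.H836.HalfOdd

/-!
# Smash-nilpotence of odd cycles: half of the dimension

Let `M` be a Chow motive which is oddly finite-dimensional in the sense of Kimura, that is, some
symmetric power of `M` vanishes. Kimura proved that the cycles of `M` are smash-nilpotent: if
`b = - χ(M)` is the dimension of `M`, then `Sym ^ (b + 1) M = 0`, so `a ^ {× (b + 1)} = 0` for every
cycle `a` of `M`. Here it is shown that half of the dimension is enough, if `M` is self-dual by a
symmetric correspondence, as for the odd part `h^{odd}(X)` of a motive (Poincare duality), for
`h^j(X)` with `j` odd if `X` satisfies the standard conjecture of Lefschetz type (up to a twist),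
for curves, abelian varieties, and so on: the dimension is an even number `2 g`, and

* `a_0 × ⋯ × a_n`, symmetrized over the permutations of the factors of `X^{n+1}`, vanishes for
  `n ≥ g` and all cycles `a_0, …, a_n` of `M`; in particular `a ^ {× (g + 1)} = 0`;
* if `b` is a cycle of `M` and `c` is any cycle on `X` with `c^{× m} = 0`, then
  `(b + c) ^ {× (m + g)} = 0` (for instance, `c` is the component of a cycle in the complement of
  `M` in `h(X)`);
* if the complement is a sum of Lefschetz motives, then `2 g` is the sum of the odd Betti numbers
  of `X` for every Weil cohomology, and `a ^ {× (g + 1)} = 0` for every numerically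
  (in particular, for every homologically) trivial cycle `a` on `X`.

For zero-cycles of degree zero on a curve of genus `g` this is the exponent `g + 1` which follows
from Bloch's theorem on abelian varieties, and which cannot be improved for complex curves.

The idea: on an oddly finite-dimensional motive of dimension `-2 g` with a symmetric form `θ` the
sum over all perfect matchings of `2 g + 2` points of the products of the classes
`(z_i, z_j)^* θ` vanishes (the second fundamental theorem for `Sp(2 g)`, lifted to Chow groups);
cycles of `M` are isotropic for the form, and if one inserts them in half of the points, then only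
the permutations survive.
-/

open CategoryTheory CategoryTheory.Limits AlgebraicGeometry
open Pool.Agent.H914 Pool.Agent.H914.VarClass Pool.Agent.H914.VarClass.Obj
open Pool.Agent.R903 Pool.Agent.H836

universe u v w

namespace Pool.Agent.Results.MP_bf8edd_ag.HalfOddDimension

/-- Let `θ` and `η` be correspondences from `X` to itself (of any degrees) such that `θ` is
symmetric and `θ ∘ η ∘ θ = θ`, so that `p = θ ∘ η` is a projector, and suppose that a symmetric
power of the motive `M = (X, p)` vanishes. Then its dimension is `- 2 g` with a natural number `g`.
The symmetrized exterior products of more than `g` cycles of `M` vanish. The exponent of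
smash-nilpotence of a cycle `b + c`, where `b` is a cycle of `M`, exceeds that of `c` by at most
`g`. If the complement of `M` is a sum of Lefschetz motives, then `2 g` is the sum of the odd Betti
numbers of `X`, and `a^{× (g + 1)} = 0` for all numerically trivial cycles `a` on `X`. -/
theorem result {k : Type u} [Field k] {𝒱 : VarClass k} {C : ChowTheory.{u, v} 𝒱}
    (hP : C.Polarized) (X : 𝒱.Obj) (θ η : C.CH (X.prod X)) (h : IsOddForm C θ η) :
    ∃ g : ℕ, C.motDim (C.comp η θ) = -2 * g ∧
      (∀ n, g ≤ n → ∀ a : Fin (n + 1) → C.CH X, (∀ i, IsCycleOf C (C.comp η θ) (a i)) →
        symProd C a = 0) ∧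
      (∀ (b c : C.CH X) (m : ℕ), IsCycleOf C (C.comp η θ) b → PowVanishes C c m →
        PowVanishes C (b + c) (m + g)) ∧
      (LefschetzComplement C (C.comp η θ) →
        (∀ W : WeilTheory.{u, v, w} C, 2 * g = oddBetti W X) ∧
        ∀ a : C.CH X, NumTrivial C a → PowVanishes C a (g + 1)) :=
  halfOdd hP X θ η h

end Pool.Agent.Results.MP_bf8edd_ag.HalfOddDimension
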