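import Pool.Agent.H838.CFSmMain

/-!
# Voevodsky's conjecture: cycles with coefficients in a field of characteristic zero

`C` are the Chow groups with rational coefficients (in the form of their formal properties,
`IsChowProj`) of the varieties of a class `𝒱` closed under products, for example all smooth projective
complex varieties, and `ChF F C` the Chow groups with coefficients in a field `F` of characteristic
zero. `exProd T b n` is the exterior product `b 0 × ⋯ × b n`.

1. Let `a 0, …, a (r-1)` be cycles with rational coefficients and `lam 0, …, lam (r-1)` elements of `F`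
   which are linearly independent over `ℚ`. If `m + 1` is an exponent for the single cycle
   `z = ∑ lam j a j`, i.e. `z × ⋯ × z = 0` (`m + 1` factors), then all exterior products of `r m + 1`
   elements of the `ℚ`-span of the `a j` are zero. So `z` is smash-nilpotent if and only if all `a j`
   are.
2. The smash-nilpotent cycles with coefficients in `F` are the `F`-combinations of smash-nilpotent
   cycles with rational coefficients.
3. Voevodsky's conjecture for `X` in codimension `i` (all homologically trivial cycles are
   smash-nilpotent) with coefficients in `F` is equivalent to the one with rational coefficients.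

For the proof of 1, points of a finitely generated algebra containing the `lam j` over a number field
`L` are constructed for which the values of the `lam j` form an invertible matrix; the specializations
of `z` have exponent `m + 1` and generate the `L`-span of the `a j`.
-/

set_option autoImplicit false

universe u v w t

namespace Pool.Agent.Results.MP_bf8edd_ag.OneCycleWithCoefficients

open Pool.Agent.H914 Pool.Agent.H914.VarClass Pool.Agent.H914.VarClass.Obj Pool.Agent.W492.BB
  Pool.Agent.TH133 Pool.Agent.H838.CF

/-- Smash-nilpotence of cycles with coefficients in `F`. -/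
theorem result {k : Type u} [Field k] {𝒱 : VarClass k} (C : TheoryData.{u, v, 0} 𝒱 ℚ)
    [IsChowProj C] (F : Type t) [Field F] [Algebra ℚ F] (X : 𝒱.Obj) :
    (∀ (r : ℕ) (lam : Fin r → F) (a : Fin r → C.A X), LinearIndependent ℚ lam →
      (∀ m, exProd (ChF F C) (fun _ => ∑ j, lam j • rat F (a j)) m = 0 →
        ∀ b : ℕ → C.A X, (∀ i, b i ∈ Submodule.span ℚ (Set.range a)) → exProd C b (r * m) = 0) ∧
      (SmashNil (ChF F C) (∑ j, lam j • rat F (a j)) ↔ ∀ j, SmashNil C (a j))) ∧
    (∀ z : (ChF F C).A X, SmashNil (ChF F C) z ↔
      z ∈ Submodule.span F {y : (ChF F C).A X | ∃ a, SmashNil C a ∧ y = rat F a}) ∧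
    (∀ (K : Type w) [Field K] (H : WeilTheoryData.{u, v, w} C K) (i : ℤ),
      (∀ y ∈ homF F X H i, SmashNil (ChF F C) y) ↔
        ∀ a : C.A X, C.Deg i a → H.cl a = 0 → SmashNil C a) :=
  ⟨fun _ _ a hlam => ⟨fun _ h b hb => exProd_of_comb hlam a h b hb, smashNil_comb_iff hlam a⟩,
    fun z => smashNil_iff_span z, fun _ _ H i => voevodsky_coeff H i⟩

end Pool.Agent.Results.MP_bf8edd_ag.OneCycleWithCoefficients
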