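import Pool.Agent.H367.OS.GWu
import Pool.Agent.H367.OS.Fld

/-!
# Homologically trivial cycles over `ℚ̄`, smash-nilpotence, and one sequence of cubics

A relation `r` of size `m` is one of the equations `x_i x_j = x_l`, `x_i + x_j = x_l`, `x_i = 1` with
`i, j, l < m`; the relations are numbered, the number of `r` is `ν(r)` (`relNum`). Let `G_m` be the
following polynomial with integral coefficients (`univG ℤ m`). There are variables `x_i` and `z_ij` for
`i, j < m`, a variable `c_r` for every relation `r`, and variables `y_{r,l}` for all relations `r` and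
`l < (m + 1) 2 ^ ν(r)`. The equations (`eqnG`) are

  `z_ij - x_i x_j`,  `c_r ^ 2 - c_r`,  `c_r ρ_r`,  `(1 - c_r) y_{r,l}`,

where `ρ_r` is the linear polynomial `z_ij - x_l`, `x_i + x_j - x_l` or `x_i - 1` of the relation.
`G_m` is the sum of the equations multiplied by further variables `t_e`, one for each equation. It has
degree three. Let `C_m` be the affine cubic hypersurface `G_m = 1` (`cubG R m` over the ring `R`); it is
smooth over the integers.

For a smooth projective scheme `Y` over `ℚ` let `A^n(Y)` be the group of the cycles of codimension `n`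
on `Y_ℚ̄` with rational coefficients modulo smash-nilpotent ones, and let `B^n(Y)` be the group of the
cycles on `Y_ℚ̄` modulo homological equivalence (the image in `H^{2n}(Y(ℂ), ℚ)`). Both are additive
functors of the Chow motive of `Y` over `ℚ`, with a surjection `A^n(Y) → B^n(Y)`.

For a separated scheme `X` of finite type over `ℚ` let `W(X)` be the weight complex (Gillet, Soulé; a
complex of Chow motives over `ℚ` with rational coefficients, for the cohomology with compact supports;
`W(X) = h(X)` for smooth projective `X`), and put `A^{n,i}(X) = H^i(A^n(W(X)))` and `B^{n,i}(X) =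
H^i(B^n(W(X)))`. `BijAt C Prod.fst n X` says that the maps `A^{n,i}(X) → B^{n,i}(X)` are isomorphisms
for this `n` and all `i`. For smooth projective `Y` it says that all homologically trivial cycle
classes of codimension `n` on `Y_ℚ̄` are smash-nilpotent. Every smooth projective scheme `V` over `ℚ̄`
is a union of connected components of `Y_ℚ̄` for a smooth projective scheme `Y` over `ℚ`. A cycle on
`V` is homologically trivial (smash-nilpotent) if and only if it is so on `V_ℂ`; so question Q1, in
the codimension `n`, implies the same for the varieties over `ℚ̄`. These facts are the hypothesis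
`Describes`.

**Theorem.** Let `E_m` be the number of the equations, and for `N ∈ ℕ` let
`idx m n N = n + (m + 1) N + E_m - 1`.

(1) For every `n`, all homologically trivial cycle classes of codimension `n` on smooth projective
schemes over `ℚ̄` are smash-nilpotent (question Q1 for varieties which are defined over `ℚ̄`) if and
only if the maps `A^{idx m n N, i}(C_m) → B^{idx m n N, i}(C_m)` are isomorphisms for all `N` and `i`,
for infinitely many `m`.

(2) This is true for all `n` if and only if the maps `A^{n, i}(C_m) → B^{n, i}(C_m)` are isomorphisms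
for all `n` and `i`, for infinitely many `m`.

(3) If question Q1 has a positive answer (over `ℂ`), the maps in (2) are isomorphisms for all `m`, `n`
and `i`.

(4) The hypersurfaces `C_m` decide the statements (`Decides`): for every affine scheme `Spec B` of
finite type over `ℚ` and all large `m` there is an `N` such that for `0 ≤ n ≤ m` the statement with
the index `n` for `Spec B` is equivalent to the one with the index `idx m n N` for `C_m`; and for
every separated scheme `X` of finite type and all large `m`, the statements for `C_m` imply the
statements for `X`.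

(5) For `n ≤ 1` (divisors) the maps with the indices `idx m n N` are isomorphisms for `C_m`, for all
`m ≥ 1` and `N`.

(6) `G_m` has integral coefficients and degree at most three, and `C_m` is smooth over all rings.

The hypotheses are standard: localisation sequences, affine bundles and products with `𝔾_m`
(`IsWeightPair`); the weight complex of a scheme of dimension at most `d` consists of direct factors of
motives of smooth projective varieties of dimension at most `d`, so that the groups vanish outside of
the codimensions `0, …, d` (`PVanish`, `GenAt`).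

Idea of the proof. The projection of `C_m` to the affine space with the coordinates `x, z, c, y` is an
affine bundle over the complement of the zero set `W_m` of the equations. The scheme `W_m` is the
disjoint union, over all sets `s` of relations (`c_r = 1` for `r ∈ s` and `c_r = 0` for the others), of
the products `X_s × 𝔸 ^ ((m + 1) N(s))`, where `X_s` is the affine scheme defined by the relations in
`s` and `N(s) = ∑_{r ∈ s} 2 ^ ν(r)`. The numbers `N(s)` are different, and the dimension of `X_s` is at
most `m`. So the invariant of `W_m` with the index `q + (m + 1) N(s)`, `0 ≤ q ≤ m`, is the invariant of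
`X_s` with the index `q`; the other components do not contribute. Every affine scheme of finite type
over a prime field is an `X_s`, for all large `m`.

The universal system of relations is the one of helper854 (`Pool.Agent.H854.SQ`).
-/

set_option autoImplicit false

open CategoryTheory CategoryTheory.Limits AlgebraicGeometry Pool.Agent.Y116.UV Pool.Agent.Z125.UN
  Pool.Agent.Q193.LT Pool.Agent.Q49.WU Pool.Agent.H854.SQ Pool.Agent.H367.OS

universe w w'



namespace Pool.Agent.Results.MP_bf8edd_ag.OneSequenceOverTheIntegers

/-- The Chow groups of the schemes over `F` with rational coefficients, the cycle classes, and the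
exterior powers of cycle classes. -/
structure ChowData (F : Type) [Field F] where
  /-- the Chow groups `A^r(X)` with rational coefficients -/
  A : ℕ → Sch F → ModuleCat.{w'} ℚ
  /-- the cohomology groups `H^{2r}(X(ℂ), ℚ)` -/
  H : ℕ → Sch F → ModuleCat.{w'} ℚ
  /-- the cycle class map -/
  cl : ∀ (r : ℕ) (X : Sch F), A r X ⟶ H r X
  /-- the groups `A^{mr}(X^m)` -/
  P : ℕ → ℕ → Sch F → ModuleCat.{w'} ℚ
  /-- the exterior powers `a^{× m} ∈ A^{mr}(X^m)` -/
  power : ∀ (m : ℕ) {r : ℕ} {X : Sch F}, A r X → P m r X

/-- All homologically trivial cycle classes of codimension `r` on `X` are smash-nilpotent. -/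
def VoevodskyIn {F : Type} [Field F] (D : ChowData.{w'} F) (r : ℕ) (X : Sch F) : Prop :=
  ∀ a : D.A r X, (D.cl r X).hom a = 0 → ∃ m : ℕ, 1 ≤ m ∧ D.power m a = 0

/-- Question Q1 for the field `F`. -/
def Q1 {F : Type} [Field F] (D : ChowData.{w'} F) : Prop :=
  ∀ X : Sch F, SmoothProj X → ∀ r : ℕ, VoevodskyIn D r X

/-- The relation of cycles over `ℂ` and over the field `ℚ̄` of algebraic numbers with the maps from cycles
modulo smash-nilpotence to cycles modulo homological equivalence. -/
structure Describes (D : ∀ (F : Type) [Field F], ChowData.{w'} F)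
    (C : PairData.{w} ℚ (ℤ × ℤ) ℚ) : Prop where
  descent : Q1 (D ℂ) → Q1 (D (AlgebraicClosure ℚ))
  classes : ∀ n : ℕ, FromQalg (AlgebraicClosure ℚ) (VoevodskyIn (D (AlgebraicClosure ℚ)) n)
    fun Y => BijAt C Prod.fst n Y

/-- **Homologically trivial cycles, smash-nilpotence and one sequence of cubic hypersurfaces over the
integers.** See the explanations above. Known cases that are used: the point, and the indices `N ≤ 1`
(divisors). -/
theorem result {D : ∀ (F : Type) [Field F], ChowData.{w'} F} {C : PairData.{w} ℚ (ℤ × ℤ) ℚ}
    (h : Describes D C) (weight : IsWeightPair C) (vanish : PVanish C Prod.fst)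
    (generated : GenAt C Prod.fst) (point : BijAll C (aff ℚ ℚ))
    (divisors : ∀ N : ℤ, N ≤ 1 → ∀ Y : Sch ℚ, SmoothProj Y → BijAt C Prod.fst N Y) :
    (∀ n : ℕ, (∀ V : Sch (AlgebraicClosure ℚ), SmoothProj V →
        VoevodskyIn (D (AlgebraicClosure ℚ)) n V) ↔
      ∃ᶠ m in Filter.atTop, ∀ N : ℕ, BijAt C Prod.fst (idx m n N) (cubG ℚ m)) ∧
    (Q1 (D (AlgebraicClosure ℚ)) ↔
      ∃ᶠ m in Filter.atTop, ∀ n : ℤ, BijAt C Prod.fst n (cubG ℚ m)) ∧
    (Q1 (D ℂ) → ∀ (m : ℕ) (n : ℤ), BijAt C Prod.fst n (cubG ℚ m)) ∧
    Decides (BijAt C Prod.fst) ∧
    (∀ n : ℕ, n ≤ 1 → ∀ m, 1 ≤ m → ∀ N : ℕ, BijAt C Prod.fst (idx m n N) (cubG ℚ m)) ∧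
    ∀ m : ℕ, (univG ℤ m).totalDegree ≤ 3 ∧
      ∀ (R : Type) [CommRing R], MvPolynomial.map (Int.castRingHom R) (univG ℤ m) = univG R m ∧
        Smooth (cubG R m).hom := by
  have hd : Decides (BijAt C Prod.fst) :=
    decides_pair isPrimeField_rat generated weight graded_weight vanish point
  have h1 : (∀ Y : Sch ℚ, SmoothProj Y → ∀ n : ℤ, BijAt C Prod.fst n Y) ↔
      ∃ᶠ m in Filter.atTop, ∀ n : ℤ, BijAt C Prod.fst n (cubG ℚ m) := hd.all.out 1 0
  have h3 : (∀ Y : Sch ℚ, SmoothProj Y → ∀ n : ℤ, BijAt C Prod.fst n Y) ↔
      ∀ X : Sch ℚ, FT True X → ∀ n : ℤ, BijAt C Prod.fst n X := hd.all.out 1 2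
  have h2 : Q1 (D (AlgebraicClosure ℚ)) →
      ∀ Y : Sch ℚ, SmoothProj Y → ∀ n : ℤ, BijAt C Prod.fst n Y := by
    intro g Y hY n
    rcases le_or_gt n 1 with hn | hn
    · exact divisors n hn Y hY
    · lift n to ℕ using by omega
      exact (h.classes n).all.mp (fun V hV => g V hV n) Y hY
  refine ⟨fun n => (h.classes n).all.trans ((hd.index n).out 1 0),
    Iff.trans ⟨h2, fun g V hV n => (h.classes n).all.mpr (fun Y hY => g Y hY n) V hV⟩ h1,
    fun g m n => h3.mp (h2 (h.descent g)) _ (ft_aff True) n, hd, fun n hn m hm N => ?_, cubG_facts⟩
  exact known_indices (graduated_pair weight graded_weight vanish point)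
    (generated n) (divisors n (by exact_mod_cast hn)) (hn.trans hm) N

end Pool.Agent.Results.MP_bf8edd_ag.OneSequenceOverTheIntegers
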